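import Pool.Agent.H88.A2.Def
import Pool.Agent.H8.AA.Box

/-! # [H82 A3 SML] `sml2` of H88/A2/Sml (helper95, helper12) without its logarithm, for `j ≥ 3` -/

namespace Pool.Agent.H82.A3

open Finset Pool.Agent.H8.AA

/-- integers of `[-H,H]` in one class modulo `X` -/
private theorem cls_card (X H : ℕ) (hX : 1 ≤ X) (r : ℤ) (V : Finset ℤ)
    (hV : ∀ v ∈ V, |v| ≤ (H : ℤ) ∧ (X : ℤ) ∣ v - r) : V.card ≤ 2 * H / X + 1 := by
  have hX0 : (0 : ℤ) < X := by exact_mod_cast hX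
  rw [← card_range (2 * H / X + 1)]
  refine card_le_card_of_injOn (fun v => ((v + H) / X).toNat) ?_ ?_
  · intro v hv
    have h1 := abs_le.1 (hV v hv).1
    have h2 : (0 : ℤ) ≤ (v + H) / X := Int.ediv_nonneg (by omega) hX0.le
    have h3 : (v + H) / X ≤ (2 * H : ℤ) / X := Int.ediv_le_ediv hX0 (by omega)
    have h4 : ((2 * H / X : ℕ) : ℤ) = (2 * H : ℤ) / X := by push_cast; rfl
    simp only [coe_range, Set.mem_Iio]
    rw [Int.toNat_lt h2]
    push_cast
    omega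
  · intro v hv w hw h
    have h1 := abs_le.1 (hV v hv).1
    have h2 := abs_le.1 (hV w hw).1
    have h3 : (0 : ℤ) ≤ (v + H) / X := Int.ediv_nonneg (by omega) hX0.le
    have h4 : (0 : ℤ) ≤ (w + H) / X := Int.ediv_nonneg (by omega) hX0.le
    have h5 : (v + H) / X = (w + H) / X := by
      have h6 : (((v + H) / X).toNat : ℤ) = (((w + H) / X).toNat : ℤ) := by exact_mod_cast h
      rwa [Int.toNat_of_nonneg h3, Int.toNat_of_nonneg h4] at h6
    have h7 : (v + H) % X = (w + H) % X := by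
      have h8 : (X : ℤ) ∣ (w + H) - (v + H) := by
        have h9 := dvd_sub (hV w hw).2 (hV v hv).2
        have h10 : w - r - (v - r) = (w + H) - (v + H) := by ring
        rwa [h10] at h9
      exact Int.modEq_iff_dvd.2 h8
    have h11 := Int.emod_add_mul_ediv (v + H) X
    have h12 := Int.emod_add_mul_ediv (w + H) X
    rw [h5, h7] at h11
    omega

/-- digits -/
private theorem dig (x : ℤ) (hx : x ≠ 0) (H : ℕ) : ∀ (m : ℕ) (R : ℤ) (T : Finset (Fin (m + 1) → ℤ)),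
    (∀ a ∈ T, (∀ i, |a i| ≤ (H : ℤ)) ∧ ∑ i, a i * x ^ (i : ℕ) = R) →
    T.card ≤ (2 * H / x.natAbs + 1) ^ m
  | 0, R, T, h => by
    rw [pow_zero, card_le_one]
    intro a ha b hb
    have h1 := (h a ha).2
    have h2 := (h b hb).2
    rw [Fin.sum_univ_one] at h1 h2
    funext i
    have hi : i = 0 := Fin.ext (by have := i.2; simp only [Fin.val_zero]; omega)
    rw [hi]
    simp only [Fin.isValue, Fin.val_zero, pow_zero, mul_one] at h1 h2
    rw [h1, h2]
  | m + 1, R, T, h => by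
    classical
    have hX : 1 ≤ x.natAbs := Int.natAbs_pos.2 hx
    rw [card_eq_sum_card_image (fun a : Fin (m + 1 + 1) → ℤ => a 0) T]
    have hV : (T.image (fun a : Fin (m + 1 + 1) → ℤ => a 0)).card ≤ 2 * H / x.natAbs + 1 := by
      refine cls_card x.natAbs H hX R _ ?_
      intro v hv
      obtain ⟨a, ha, rfl⟩ := mem_image.1 hv
      refine ⟨(h a ha).1 0, ?_⟩
      rw [Int.natAbs_dvd]
      have h1 := (h a ha).2
      rw [Fin.sum_univ_succ] at h1
      have h2 : ∑ i : Fin (m + 1), a i.succ * x ^ ((i.succ : Fin (m + 1 + 1)) : ℕ) =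
          x * ∑ i : Fin (m + 1), a i.succ * x ^ (i : ℕ) := by
        rw [mul_sum]
        refine sum_congr rfl fun i _ => ?_
        rw [Fin.val_succ, pow_succ]
        ring
      rw [h2] at h1
      simp only [Fin.val_zero, pow_zero, mul_one] at h1
      refine ⟨-∑ i : Fin (m + 1), a i.succ * x ^ (i : ℕ), ?_⟩
      linarith
    have hF : ∀ v ∈ T.image (fun a : Fin (m + 1 + 1) → ℤ => a 0),
        (T.filter fun a => a 0 = v).card ≤ (2 * H / x.natAbs + 1) ^ m := by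
      intro v _
      have hinj : Set.InjOn (fun (a : Fin (m + 1 + 1) → ℤ) (i : Fin (m + 1)) => a i.succ)
          (T.filter fun a => a 0 = v) := by
        intro a ha b hb hab
        have ha0 := (mem_filter.1 (mem_coe.1 ha)).2
        have hb0 := (mem_filter.1 (mem_coe.1 hb)).2
        funext i
        refine Fin.cases ?_ (fun j => ?_) i
        · rw [ha0, hb0]
        · exact congrFun hab j
      rw [← card_image_of_injOn hinj]
      refine dig x hx H m ((R - v) / x) _ ?_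
      intro a' ha'
      obtain ⟨a, ha, rfl⟩ := mem_image.1 ha'
      have ha1 := mem_filter.1 ha
      refine ⟨fun i => (h a ha1.1).1 i.succ, ?_⟩
      have h1 := (h a ha1.1).2
      rw [Fin.sum_univ_succ] at h1
      have h2 : ∑ i : Fin (m + 1), a i.succ * x ^ ((i.succ : Fin (m + 1 + 1)) : ℕ) =
          x * ∑ i : Fin (m + 1), a i.succ * x ^ (i : ℕ) := by
        rw [mul_sum]
        refine sum_congr rfl fun i _ => ?_
        rw [Fin.val_succ, pow_succ]
        ring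
      rw [h2] at h1
      simp only [Fin.val_zero, pow_zero, mul_one] at h1
      rw [ha1.2] at h1
      have h3 : R - v = x * ∑ i : Fin (m + 1), a i.succ * x ^ (i : ℕ) := by linarith
      rw [h3, Int.mul_ediv_cancel_left _ hx]
    calc ∑ v ∈ T.image (fun a : Fin (m + 1 + 1) → ℤ => a 0), (T.filter fun a => a 0 = v).card
        ≤ ∑ _v ∈ T.image (fun a : Fin (m + 1 + 1) → ℤ => a 0), (2 * H / x.natAbs + 1) ^ m :=
          sum_le_sum hF
      _ = (T.image (fun a : Fin (m + 1 + 1) → ℤ => a 0)).card * (2 * H / x.natAbs + 1) ^ m := by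
          rw [sum_const, smul_eq_mul]
      _ ≤ (2 * H / x.natAbs + 1) * (2 * H / x.natAbs + 1) ^ m := Nat.mul_le_mul_right _ hV
      _ = (2 * H / x.natAbs + 1) ^ (m + 1) := by rw [pow_succ]; ring

private theorem cnt {n H : ℕ} (z : ℤ) (hz : z ≠ 0) (g : Fin (n + 1) → Ix n) (hg : Function.Injective g)
    (Φ : (Ix n → ℤ) → ℤ)
    (hΦ : ∀ c c' : Ix n → ℤ, (∀ i, i ∉ univ.image g → c i = c' i) →
      Φ c - ∑ i, c (g i) * z ^ (i : ℕ) = Φ c' - ∑ i, c' (g i) * z ^ (i : ℕ))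
    (S : Finset (Ix n → ℤ)) (hS : ∀ c ∈ S, (∀ p, |c p| ≤ (H : ℤ)) ∧ Φ c = 0) :
    S.card ≤ (2 * H / z.natAbs + 1) ^ n * (2 * H + 1) ^ (Fintype.card (Ix n) - (n + 1)) := by
  classical
  have hJ : (univ.image g).card = n + 1 := by
    rw [card_image_of_injective _ hg, card_univ, Fintype.card_fin]
  have hfib := fib (univ.image g) H ((2 * H / z.natAbs + 1) ^ n) S (fun c hc => (hS c hc).1) ?_
  · rw [hJ] at hfib
    exact hfib
  intro c hc T hT
  have hinj : Set.InjOn (fun (c' : Ix n → ℤ) (i : Fin (n + 1)) => c' (g i)) T := by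
    intro a ha b hb hab
    funext i
    by_cases hi : i ∈ univ.image g
    · obtain ⟨j, _, rfl⟩ := mem_image.1 hi
      exact congrFun hab j
    · rw [(hT a ha).2 i hi, (hT b hb).2 i hi]
  rw [← card_image_of_injOn hinj]
  refine dig z hz H n (∑ i, c (g i) * z ^ (i : ℕ)) _ ?_
  intro a' ha'
  obtain ⟨c', hc', rfl⟩ := mem_image.1 ha'
  obtain ⟨h1, h2⟩ := hT c' hc'
  refine ⟨fun i => (hS c' h1).1 (g i), ?_⟩
  have h3 := hΦ c' c h2
  rw [(hS c' h1).2, (hS c hc).2] at h3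
  linarith

private theorem hx_part (n : ℕ) (x y : ℤ) (c c' : Ix n → ℤ)
    (h : ∀ i, i ∉ univ.image (fun i : Fin (n + 1) => ix (n := n) (i : ℕ) 0 (by omega)) → c i = c' i) :
    ev n (co c) x y - ∑ i : Fin (n + 1), c (ix (i : ℕ) 0 (by omega)) * x ^ (i : ℕ) =
      ev n (co c') x y - ∑ i : Fin (n + 1), c' (ix (i : ℕ) 0 (by omega)) * x ^ (i : ℕ) := by
  have key : ∀ d : Ix n → ℤ, ev n (co d) x y -
      ∑ i : Fin (n + 1), d (ix (i : ℕ) 0 (by omega)) * x ^ (i : ℕ) =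
      ∑ k ∈ range (n + 1), ∑ j ∈ range k, co d (k - (j + 1)) (j + 1) * (x ^ (k - (j + 1)) * y ^ (j + 1)) := by
    intro d
    have h1 : ∑ i : Fin (n + 1), d (ix (i : ℕ) 0 (by omega)) * x ^ (i : ℕ) =
        ∑ k ∈ range (n + 1), co d k 0 * x ^ k := by
      rw [← Fin.sum_univ_eq_sum_range (fun k => co d k 0 * x ^ k)]
      refine sum_congr rfl fun i _ => ?_
      rw [co_of_le d (by omega : (i : ℕ) + 0 ≤ n)]
    rw [h1]
    unfold ev
    rw [← sum_sub_distrib]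
    refine sum_congr rfl fun k _ => ?_
    rw [sum_range_succ']
    simp
  rw [key, key]
  refine sum_congr rfl fun k hk => sum_congr rfl fun j hj => ?_
  have hk' := mem_range.1 hk
  have hj' := mem_range.1 hj
  have hle : k - (j + 1) + (j + 1) ≤ n := by omega
  rw [co_of_le c hle, co_of_le c' hle, h]
  intro hm
  obtain ⟨i, _, hi⟩ := mem_image.1 hm
  have h2 := congrArg (fun q : Ix n => q.1.2.val) hi
  simp [ix] at h2

private theorem hy_part (n : ℕ) (x y : ℤ) (c c' : Ix n → ℤ)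
    (h : ∀ i, i ∉ univ.image (fun i : Fin (n + 1) => ix (n := n) 0 (i : ℕ) (by omega)) → c i = c' i) :
    ev n (co c) x y - ∑ i : Fin (n + 1), c (ix 0 (i : ℕ) (by omega)) * y ^ (i : ℕ) =
      ev n (co c') x y - ∑ i : Fin (n + 1), c' (ix 0 (i : ℕ) (by omega)) * y ^ (i : ℕ) := by
  have key : ∀ d : Ix n → ℤ, ev n (co d) x y -
      ∑ i : Fin (n + 1), d (ix 0 (i : ℕ) (by omega)) * y ^ (i : ℕ) =
      ∑ k ∈ range (n + 1), ∑ j ∈ range k, co d (k - j) j * (x ^ (k - j) * y ^ j) := by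
    intro d
    have h1 : ∑ i : Fin (n + 1), d (ix 0 (i : ℕ) (by omega)) * y ^ (i : ℕ) =
        ∑ k ∈ range (n + 1), co d 0 k * y ^ k := by
      rw [← Fin.sum_univ_eq_sum_range (fun k => co d 0 k * y ^ k)]
      refine sum_congr rfl fun i _ => ?_
      rw [co_of_le d (by omega : 0 + (i : ℕ) ≤ n)]
    rw [h1]
    unfold ev
    rw [← sum_sub_distrib]
    refine sum_congr rfl fun k _ => ?_
    rw [sum_range_succ]
    simp
  rw [key, key]
  refine sum_congr rfl fun k hk => sum_congr rfl fun j hj => ?_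
  have hk' := mem_range.1 hk
  have hj' := mem_range.1 hj
  have hle : k - j + j ≤ n := by omega
  rw [co_of_le c hle, co_of_le c' hle, h]
  intro hm
  obtain ⟨i, _, hi⟩ := mem_image.1 hm
  have h2 := congrArg (fun q : Ix n => q.1.1.val) hi
  simp [ix] at h2
  omega

private theorem cardx (n H : ℕ) (x y r : ℤ) (hx : x ≠ 0) (S : Finset (Ix n → ℤ))
    (hS : ∀ c ∈ S, (∀ p, |c p| ≤ (H : ℤ)) ∧ r + ev n (co c) x y = 0) :
    S.card ≤ (2 * H / x.natAbs + 1) ^ n * (2 * H + 1) ^ (Fintype.card (Ix n) - (n + 1)) := by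
  refine cnt x hx (fun i : Fin (n + 1) => ix (n := n) (i : ℕ) 0 (by omega)) ?_
    (fun c => r + ev n (co c) x y) (fun c c' h => ?_) S hS
  · intro i j hij
    have h2 := congrArg (fun q : Ix n => q.1.1.val) hij
    exact Fin.ext h2
  · have := hx_part n x y c c' h
    simp only [add_sub_assoc]
    rw [this]

private theorem cardy (n H : ℕ) (x y r : ℤ) (hy : y ≠ 0) (S : Finset (Ix n → ℤ))
    (hS : ∀ c ∈ S, (∀ p, |c p| ≤ (H : ℤ)) ∧ r + ev n (co c) x y = 0) :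
    S.card ≤ (2 * H / y.natAbs + 1) ^ n * (2 * H + 1) ^ (Fintype.card (Ix n) - (n + 1)) := by
  refine cnt y hy (fun i : Fin (n + 1) => ix (n := n) 0 (i : ℕ) (by omega)) ?_
    (fun c => r + ev n (co c) x y) (fun c c' h => ?_) S hS
  · intro i j hij
    have h2 := congrArg (fun q : Ix n => q.1.2.val) hij
    exact Fin.ext h2
  · have := hy_part n x y c c' h
    simp only [add_sub_assoc]
    rw [this]

private theorem card0 (n H : ℕ) (r : ℤ) (S : Finset (Ix n → ℤ))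
    (hS : ∀ c ∈ S, (∀ p, |c p| ≤ (H : ℤ)) ∧ r + ev n (co c) 0 0 = 0) :
    S.card ≤ (2 * H + 1) ^ (Fintype.card (Ix n) - 1) := by
  classical
  have h00 : ∀ c : Ix n → ℤ, ev n (co c) 0 0 = c (ix 0 0 (by omega)) := by
    intro d
    unfold ev
    rw [sum_range_succ']
    have h3 : ∑ k ∈ range n, ∑ j ∈ range (k + 1 + 1),
        co d (k + 1 - j) j * ((0 : ℤ) ^ (k + 1 - j) * 0 ^ j) = 0 := by
      refine sum_eq_zero fun k _ => sum_eq_zero fun j hj => ?_
      by_cases hj0 : j = 0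
      · subst hj0
        simp
      · rw [zero_pow hj0]
        simp
    rw [h3]
    simp [co_of_le d (by omega : 0 + 0 ≤ n)]
  have h := fib ({ix 0 0 (by omega)} : Finset (Ix n)) H 1 S (fun c hc => (hS c hc).1) ?_
  · rw [card_singleton, one_mul] at h
    exact h
  · intro c hc T hT
    rw [card_le_one]
    intro a ha b hb
    funext i
    by_cases hi : i = ix 0 0 (by omega)
    · have e1 := (hS a (hT a ha).1).2
      have e2 := (hS b (hT b hb).1).2
      rw [h00] at e1 e2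
      rw [hi]
      linarith
    · rw [(hT a ha).2 i (by simpa using hi), (hT b hb).2 i (by simpa using hi)]

private theorem count_le (n H R : ℕ) (g : ℤ → ℤ → ℤ) (S : Finset (Ix n → ℤ))
    (hS : ∀ c ∈ S, (∀ p, |c p| ≤ (H : ℤ)) ∧ ∃ x y : ℤ, x.natAbs ≤ R ∧ y.natAbs ≤ R ∧ g x y + ev n (co c) x y = 0) :
    S.card ≤ (2 * H + 1) ^ (Fintype.card (Ix n) - 1) + ∑ X ∈ range R, (2 * X + 3) *
      (4 * ((2 * H / (X + 1) + 1) ^ n * (2 * H + 1) ^ (Fintype.card (Ix n) - (n + 1)))) := by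
  classical
  let Z : ℤ → ℤ → Finset (Ix n → ℤ) := fun x y => S.filter (fun c => g x y + ev n (co c) x y = 0)
  have hZ : ∀ x y, ∀ c ∈ Z x y, (∀ p, |c p| ≤ (H : ℤ)) ∧ g x y + ev n (co c) x y = 0 := by
    intro x y c hc
    have h1 := mem_filter.1 hc
    exact ⟨(hS c h1.1).1, h1.2⟩
  let U : ℕ → Finset (Ix n → ℤ) := fun X => (Icc (-((X : ℤ) + 1)) ((X : ℤ) + 1)).biUnion
    (fun y => (Z ((X : ℤ) + 1) y ∪ Z (-((X : ℤ) + 1)) y) ∪ (Z y ((X : ℤ) + 1) ∪ Z y (-((X : ℤ) + 1))))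
  have hsub : S ⊆ Z 0 0 ∪ (range R).biUnion U := by
    intro c hc
    obtain ⟨x, y, hx, hy, h0⟩ := (hS c hc).2
    have hmem : ∀ x y : ℤ, g x y + ev n (co c) x y = 0 → c ∈ Z x y := fun x y h => mem_filter.2 ⟨hc, h⟩
    rw [mem_union]
    by_cases hxy : x = 0 ∧ y = 0
    · left
      obtain ⟨rfl, rfl⟩ := hxy
      exact hmem _ _ h0
    · right
      rw [mem_biUnion]
      by_cases hle : y.natAbs ≤ x.natAbs
      · refine ⟨x.natAbs - 1, mem_range.2 (by omega), ?_⟩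
        rw [mem_biUnion]
        refine ⟨y, mem_Icc.2 ⟨by omega, by omega⟩, ?_⟩
        rw [mem_union, mem_union]
        left
        rcases le_or_gt 0 x with h | h
        · left
          have h1 : ((x.natAbs - 1 : ℕ) : ℤ) + 1 = x := by omega
          rw [h1]
          exact hmem _ _ h0
        · right
          have h1 : -(((x.natAbs - 1 : ℕ) : ℤ) + 1) = x := by omega
          rw [h1]
          exact hmem _ _ h0
      · refine ⟨y.natAbs - 1, mem_range.2 (by omega), ?_⟩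
        rw [mem_biUnion]
        refine ⟨x, mem_Icc.2 ⟨by omega, by omega⟩, ?_⟩
        rw [mem_union]
        right
        rw [mem_union]
        rcases le_or_gt 0 y with h | h
        · left
          have h1 : ((y.natAbs - 1 : ℕ) : ℤ) + 1 = y := by omega
          rw [h1]
          exact hmem _ _ h0
        · right
          have h1 : -(((y.natAbs - 1 : ℕ) : ℤ) + 1) = y := by omega
          rw [h1]
          exact hmem _ _ h0
  have h0 : (Z 0 0).card ≤ (2 * H + 1) ^ (Fintype.card (Ix n) - 1) := card0 n H _ _ (hZ 0 0)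
  have hU : ∀ X ∈ range R, (U X).card ≤ (2 * X + 3) *
      (4 * ((2 * H / (X + 1) + 1) ^ n * (2 * H + 1) ^ (Fintype.card (Ix n) - (n + 1)))) := by
    intro X _
    refine card_biUnion_le.trans ?_
    have hcard : (Icc (-((X : ℤ) + 1)) ((X : ℤ) + 1)).card = 2 * X + 3 := by
      rw [Int.card_Icc]
      omega
    rw [← hcard, ← smul_eq_mul, ← sum_const]
    refine sum_le_sum fun y _ => ?_
    have a1 : ((X : ℤ) + 1).natAbs = X + 1 := by omega
    have a2 : (-((X : ℤ) + 1)).natAbs = X + 1 := by omega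
    have b1 := cardx n H ((X : ℤ) + 1) y _ (by omega) _ (hZ _ y)
    have b2 := cardx n H (-((X : ℤ) + 1)) y _ (by omega) _ (hZ _ y)
    have b3 := cardy n H y ((X : ℤ) + 1) _ (by omega) _ (hZ y _)
    have b4 := cardy n H y (-((X : ℤ) + 1)) _ (by omega) _ (hZ y _)
    rw [a1] at b1 b3
    rw [a2] at b2 b4
    have c1 := card_union_le (Z ((X : ℤ) + 1) y ∪ Z (-((X : ℤ) + 1)) y) (Z y ((X : ℤ) + 1) ∪ Z y (-((X : ℤ) + 1)))
    have c2 := card_union_le (Z ((X : ℤ) + 1) y) (Z (-((X : ℤ) + 1)) y)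
    have c3 := card_union_le (Z y ((X : ℤ) + 1)) (Z y (-((X : ℤ) + 1)))
    omega
  calc S.card ≤ (Z 0 0 ∪ (range R).biUnion U).card := card_le_card hsub
    _ ≤ (Z 0 0).card + ((range R).biUnion U).card := card_union_le _ _
    _ ≤ _ := by
      refine Nat.add_le_add h0 (card_biUnion_le.trans (sum_le_sum hU))

private theorem term (j : ℕ) (K : ℝ) (hK : 1 ≤ K) (H X : ℕ) (hX : (X : ℝ) + 1 ≤ K * H) :
    (2 * (X : ℝ) + 3) * (((2 * H / (X + 1) + 1 : ℕ) : ℝ)) ^ j ≤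
      3 * ((2 + K) * H) ^ j * (((X : ℝ) + 1) / ((X : ℝ) + 1) ^ j) := by
  have hX0 : (0 : ℝ) ≤ (X : ℝ) := Nat.cast_nonneg X
  have hY0 : (0 : ℝ) < (X : ℝ) + 1 := by linarith
  have h3 : 2 * (X : ℝ) + 3 ≤ 3 * ((X : ℝ) + 1) := by linarith
  have h4 : ((2 * H / (X + 1) + 1 : ℕ) : ℝ) ≤ (2 + K) * H / ((X : ℝ) + 1) := by
    have h5 : ((2 * H / (X + 1) : ℕ) : ℝ) ≤ ((2 * H : ℕ) : ℝ) / ((X + 1 : ℕ) : ℝ) := Nat.cast_div_le
    have h6 : (1 : ℝ) ≤ K * H / ((X : ℝ) + 1) := by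
      rw [le_div_iff₀ hY0]
      linarith
    push_cast at h5 ⊢
    have h7 : (2 + K) * (H : ℝ) / ((X : ℝ) + 1) = 2 * H / ((X : ℝ) + 1) + K * H / ((X : ℝ) + 1) := by ring
    rw [h7]
    linarith
  have h8 : (((2 * H / (X + 1) + 1 : ℕ) : ℝ)) ^ j ≤ ((2 + K) * H / ((X : ℝ) + 1)) ^ j :=
    pow_le_pow_left₀ (Nat.cast_nonneg _) h4 j
  calc (2 * (X : ℝ) + 3) * (((2 * H / (X + 1) + 1 : ℕ) : ℝ)) ^ j
      ≤ (3 * ((X : ℝ) + 1)) * ((2 + K) * H / ((X : ℝ) + 1)) ^ j :=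
        mul_le_mul h3 h8 (by positivity) (by positivity)
    _ = _ := by
        rw [div_pow]; ring

private theorem two_le (R : ℕ) : ∑ X ∈ range R, (1 : ℝ) / ((X : ℝ) + 1) ^ 2 ≤ 2 := by
  have h : ∀ R : ℕ, ∑ X ∈ range (R + 1), (1 : ℝ) / ((X : ℝ) + 1) ^ 2 ≤ 2 - 1 / ((R : ℝ) + 1) := by
    intro R
    induction R with
    | zero => norm_num
    | succ R ih =>
      rw [sum_range_succ]
      have h1 : (0 : ℝ) ≤ (R : ℝ) := Nat.cast_nonneg R
      have h2 : (1 : ℝ) / (((R + 1 : ℕ) : ℝ) + 1) ^ 2 ≤ 1 / ((R : ℝ) + 1) - 1 / (((R + 1 : ℕ) : ℝ) + 1) := by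
        push_cast
        rw [div_sub_div _ _ (by positivity) (by positivity), div_le_div_iff₀ (by positivity) (by positivity)]
        nlinarith
      linarith
  rcases Nat.eq_zero_or_pos R with h1 | h1
  · rw [h1]
    simp
  · have h2 := h (R - 1)
    have h3 : R - 1 + 1 = R := by omega
    rw [h3] at h2
    have h4 : 0 ≤ 1 / (((R - 1 : ℕ) : ℝ) + 1) := by positivity
    linarith

theorem sml3 (j : ℕ) (hj : 3 ≤ j) (K : ℝ) (hK : 1 ≤ K) : ∃ C : ℝ, 0 ≤ C ∧ ∀ (H : ℕ), 1 ≤ H →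
    ∀ (g : ℤ → ℤ → ℤ) (T : Finset (Ix j → ℤ)),
    (∀ c ∈ T, (∀ p, |c p| ≤ (H : ℤ)) ∧ ∃ x y : ℤ, max |(x : ℝ)| |(y : ℝ)| ≤ K * H ∧ g x y + ev j (co c) x y = 0) →
    (T.card : ℝ) ≤ C * (2 * (H : ℝ) + 1) ^ (Fintype.card (Ix j) - 1) := by
  refine ⟨1 + 24 * (2 + K) ^ j, by positivity, ?_⟩
  intro H hH g T hT
  set R : ℕ := ⌊K * H⌋₊ with hR
  have hH1 : (1 : ℝ) ≤ H := by exact_mod_cast hH
  have hKS1 : 1 ≤ K * H := by nlinarith
  have hR1 : 1 ≤ R := Nat.le_floor (by simpa using hKS1)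
  have hRle : (R : ℝ) ≤ K * H := Nat.floor_le (by linarith)
  have hT' : ∀ c ∈ T, (∀ p, |c p| ≤ (H : ℤ)) ∧
      ∃ x y : ℤ, x.natAbs ≤ R ∧ y.natAbs ≤ R ∧ g x y + ev j (co c) x y = 0 := by
    intro c hc
    obtain ⟨h1, x, y, h2, h3⟩ := hT c hc
    refine ⟨h1, x, y, ?_, ?_, h3⟩
    · refine Nat.le_floor (le_trans ?_ h2)
      rw [Nat.cast_natAbs]
      push_cast
      exact le_max_left _ _
    · refine Nat.le_floor (le_trans ?_ h2)
      rw [Nat.cast_natAbs]
      push_cast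
      exact le_max_right _ _
  have hmain := count_le j H R g T hT'
  have hmain' : (T.card : ℝ) ≤ (2 * (H : ℝ) + 1) ^ (Fintype.card (Ix j) - 1) + ∑ X ∈ range R, (2 * (X : ℝ) + 3) *
      (4 * ((((2 * H / (X + 1) + 1 : ℕ) : ℝ)) ^ j * (2 * (H : ℝ) + 1) ^ (Fintype.card (Ix j) - (j + 1)))) := by
    have h1 : (T.card : ℝ) ≤ (((2 * H + 1) ^ (Fintype.card (Ix j) - 1) + ∑ X ∈ range R, (2 * X + 3) *
      (4 * ((2 * H / (X + 1) + 1) ^ j * (2 * H + 1) ^ (Fintype.card (Ix j) - (j + 1)))) : ℕ) : ℝ) := by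
      exact_mod_cast hmain
    refine h1.trans (le_of_eq ?_)
    push_cast
    ring
  set W : ℝ := (2 * (H : ℝ) + 1) ^ (Fintype.card (Ix j) - (j + 1)) with hW
  have hW0 : 0 ≤ W := by positivity
  have hsum : ∑ X ∈ range R, (2 * (X : ℝ) + 3) * (((2 * H / (X + 1) + 1 : ℕ) : ℝ)) ^ j ≤
      3 * ((2 + K) * H) ^ j * 2 := by
    calc ∑ X ∈ range R, (2 * (X : ℝ) + 3) * (((2 * H / (X + 1) + 1 : ℕ) : ℝ)) ^ j
        ≤ ∑ X ∈ range R, 3 * ((2 + K) * H) ^ j * (((X : ℝ) + 1) / ((X : ℝ) + 1) ^ j) := by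
          refine sum_le_sum fun X hX => term j K hK H X ?_
          have h1 : ((X + 1 : ℕ) : ℝ) ≤ R := by exact_mod_cast mem_range.1 hX
          push_cast at h1
          exact h1.trans hRle
      _ = 3 * ((2 + K) * H) ^ j * ∑ X ∈ range R, (((X : ℝ) + 1) / ((X : ℝ) + 1) ^ j) := by rw [mul_sum]
      _ ≤ _ := by
          refine mul_le_mul_of_nonneg_left ?_ (by positivity)
          refine (sum_le_sum fun X _ => ?_).trans (two_le R)
          have hX0 : (0 : ℝ) ≤ (X : ℝ) := Nat.cast_nonneg X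
          rw [div_le_div_iff₀ (by positivity) (by positivity), one_mul, ← pow_succ']
          exact pow_le_pow_right₀ (by linarith) (by omega)
  have hHW : (H : ℝ) ^ j * W ≤ (2 * (H : ℝ) + 1) ^ (Fintype.card (Ix j) - 1) := by
    have h1 : (H : ℝ) ^ j ≤ (2 * (H : ℝ) + 1) ^ j := pow_le_pow_left₀ (by positivity) (by linarith) j
    have h2 : (2 * (H : ℝ) + 1) ^ (Fintype.card (Ix j) - 1) = (2 * (H : ℝ) + 1) ^ j * W := by
      rw [hW, ← pow_add]
      congr 1
      have h3 : j + 1 ≤ Fintype.card (Ix j) := by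
        rw [card_ix]
        rw [Nat.le_div_iff_mul_le (by norm_num)]
        nlinarith
      omega
    rw [h2]
    exact mul_le_mul_of_nonneg_right h1 hW0
  have hfin : ∑ X ∈ range R, (2 * (X : ℝ) + 3) * (4 * ((((2 * H / (X + 1) + 1 : ℕ) : ℝ)) ^ j * W)) =
      4 * W * ∑ X ∈ range R, (2 * (X : ℝ) + 3) * (((2 * H / (X + 1) + 1 : ℕ) : ℝ)) ^ j := by
    rw [mul_sum]
    refine sum_congr rfl fun X _ => ?_
    ring
  rw [hfin] at hmain'
  have h1 := mul_le_mul_of_nonneg_left hsum (by positivity : (0 : ℝ) ≤ 4 * W)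
  have h2 : 4 * W * (3 * ((2 + K) * H) ^ j * 2) = (24 * (2 + K) ^ j) * ((H : ℝ) ^ j * W) := by rw [mul_pow]; ring
  rw [h2] at h1
  have hc0 : (0 : ℝ) ≤ 24 * (2 + K) ^ j := by positivity
  have h3 := mul_le_mul_of_nonneg_left hHW hc0
  calc (T.card : ℝ) ≤ _ := hmain'
    _ ≤ (2 * (H : ℝ) + 1) ^ (Fintype.card (Ix j) - 1) +
        (24 * (2 + K) ^ j) * (2 * (H : ℝ) + 1) ^ (Fintype.card (Ix j) - 1) := by
        linarith
    _ = _ := by ring

end Pool.Agent.H82.A3
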