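import Pool.Agent.H82.A3.Cnt
import Pool.Agent.H82.A3.Sml

/-! # [H82 A3 ASM] Assembly

As `main0` of H88/A2/Asm (helper88) with `mid3` (all of `K H ≤ |P| ≤ (B H)^E`) and `sml3` (`j ≥ 3`), `sml2` with `S = H` (`j = 2`). -/

namespace Pool.Agent.H82.A3

open Finset MvPolynomial Pool.Agent.H8.AA Pool.Agent.H88.A2

theorem light_le (H M m : ℕ) (hm : 2 ≤ m) (hM : m + 1 ≤ M) :
    (H : ℝ) ^ 2 * (2 * (H : ℝ) + 1) ^ (M - (m + 1)) ≤ (2 * (H : ℝ) + 1) ^ (M - 1) := by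
  have hH0 : (0 : ℝ) ≤ (H : ℝ) := Nat.cast_nonneg H
  have h1 : M - 1 = (M - (m + 1)) + m := by omega
  rw [h1, pow_add, mul_comm]
  have hH2 : (H : ℝ) ^ 2 ≤ (2 * (H : ℝ) + 1) ^ m :=
    (pow_le_pow_left₀ hH0 (by linarith) 2).trans (pow_le_pow_right₀ (by linarith) hm)
  gcongr

/-- the number of light points when `U` is a power of `H` -/
theorem Lm_le (H : ℕ) (U D D2 : ℝ) (hH : 1 ≤ H) (hD : 0 ≤ D) (h1 : 1 + Real.log U / Real.log (2 * H) ≤ D2)
    (h2 : 1 + Real.log U ≤ D * (1 + Real.log H)) : Lm H U ≤ (D2 + 2 * D) * (H : ℝ) ^ 2 := by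
  have hH' : (1 : ℝ) ≤ (H : ℝ) := by exact_mod_cast hH
  have hH0 : (0 : ℝ) < (H : ℝ) := by linarith
  have hs : 0 < √(H : ℝ) := Real.sqrt_pos.2 hH0
  have hss : √(H : ℝ) * √(H : ℝ) = H := Real.mul_self_sqrt hH0.le
  have h3 : Real.log H ≤ 2 * (√(H : ℝ) - 1) := by
    have h4 : Real.log (H : ℝ) = 2 * Real.log √(H : ℝ) := by
      rw [Real.log_sqrt hH0.le]
      ring
    rw [h4]
    have := Real.log_le_sub_one_of_pos hs
    linarith
  unfold Lm
  calc (H : ℝ) ^ 2 * (1 + Real.log U / Real.log (2 * H)) + H * √H * (1 + Real.log U)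
      ≤ (H : ℝ) ^ 2 * D2 + H * √H * (D * (2 * √(H : ℝ))) := by
        have h5 : 1 + Real.log U ≤ D * (2 * √(H : ℝ)) := by
          refine h2.trans (mul_le_mul_of_nonneg_left ?_ hD)
          linarith
        gcongr
    _ = (H : ℝ) ^ 2 * D2 + H * (2 * D) * (√H * √H) := by ring
    _ = _ := by rw [hss]; ring

theorem small_le (j : ℕ) (hj : 2 ≤ j) (K : ℝ) (hK : 1 ≤ K) : ∃ C : ℝ, 0 ≤ C ∧ ∀ (H : ℕ), 1 ≤ H →
    ∀ (g : ℤ → ℤ → ℤ) (T : Finset (Ix j → ℤ)),
    (∀ c ∈ T, (∀ p, |c p| ≤ (H : ℤ)) ∧ ∃ x y : ℤ, max |(x : ℝ)| |(y : ℝ)| ≤ K * H ∧ g x y + ev j (co c) x y = 0) →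
    (T.card : ℝ) ≤ C * (2 * (H : ℝ) + 1) ^ (Fintype.card (Ix j) - 1) * (if j = 2 then 1 + Real.log H else 1) := by
  by_cases hj2 : j = 2
  · obtain ⟨C, hC, h⟩ := sml2 j (by omega) K hK
    refine ⟨C, hC, ?_⟩
    intro H hH g T hT
    have h1 := h H H hH (by exact_mod_cast hH) (le_refl _) g T hT
    rw [if_neg (by omega)] at h1
    rw [if_pos hj2]
    exact h1
  · obtain ⟨C, hC, h⟩ := sml3 j (by omega) K hK
    refine ⟨C, hC, ?_⟩
    intro H hH g T hT
    rw [if_neg hj2, mul_one]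
    exact h H hH g T hT

theorem main3 (n j : ℕ) (G : MvPolynomial (Fin 2) ℤ) (h : Hyp0 n j G) (hj : 2 ≤ j) (hE : Lr j G) : ∃ C : ℝ, ∀ H : ℕ, 1 ≤ H →
    (Set.ncard {L : MvPolynomial (Fin 2) ℤ | L.totalDegree ≤ j ∧ (∀ m, |L.coeff m| ≤ (H : ℤ)) ∧
      ∃ P : Fin 2 → ℤ, eval P (G + L) = 0} : ℝ) ≤
      C * (H : ℝ) ^ ((j + 1) * (j + 2) / 2 - 1) * (if j = 2 then 1 + Real.log H else 1) := by
  classical
  have hn := h.hn
  have hjn := h.hjn
  obtain ⟨B, hB, hGB⟩ := exists_bound G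
  obtain ⟨E, C3, hC3, hlrg⟩ := hE
  obtain ⟨C2, K, hC2, hK, hmid⟩ := mid3 n j G h B hB hGB
  obtain ⟨C1, hC1, hsml⟩ := small_le j hj K hK
  have hB' : (2 : ℝ) ≤ (B : ℝ) := by exact_mod_cast hB
  have hlB : 0 ≤ Real.log B := Real.log_nonneg (by linarith)
  have hl2 : 0 < Real.log 2 := Real.log_pos (by norm_num)
  have hE0 : (0 : ℝ) ≤ E := Nat.cast_nonneg _
  obtain ⟨D, hD⟩ : ∃ D : ℝ, D = 1 + E * (Real.log B + 1) := ⟨_, rfl⟩
  have hD0 : 1 ≤ D := by
    rw [hD]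
    have : 0 ≤ (E : ℝ) * (Real.log B + 1) := by positivity
    linarith
  obtain ⟨D2, hD2⟩ : ∃ D2 : ℝ, D2 = 1 + E * (Real.log B / Real.log 2 + 1) := ⟨_, rfl⟩
  have hD20 : 1 ≤ D2 := by
    rw [hD2]
    have : 0 ≤ (E : ℝ) * (Real.log B / Real.log 2 + 1) := by positivity
    linarith
  obtain ⟨M, hM⟩ : ∃ M : ℕ, M = Fintype.card (Ix j) := ⟨_, rfl⟩
  have hM1 : (j + 1) * (j + 2) / 2 = M := by rw [hM, card_ix]
  have hMj : j + 1 ≤ M := by
    rw [← hM1, Nat.le_div_iff_mul_le (by norm_num)]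
    nlinarith
  obtain ⟨D3, hD3⟩ : ∃ D3 : ℝ, D3 = 1 + E * (Real.log B / Real.log 2 + 1) := ⟨_, rfl⟩
  have hD30 : 1 ≤ D3 := by
    rw [hD3]
    have : 0 ≤ (E : ℝ) * (Real.log B / Real.log 2 + 1) := by positivity
    linarith
  refine ⟨(C1 + C2 * ((D3 + 2 * D) + D2) + C3) * 3 ^ (M - 1), ?_⟩
  intro H hH
  have hH' : (1 : ℝ) ≤ (H : ℝ) := by exact_mod_cast hH
  have hH0 : (0 : ℝ) < (H : ℝ) := by linarith
  have hlH : 0 ≤ Real.log H := Real.log_nonneg hH'
  -- the upper end of the middle range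
  obtain ⟨U, hU⟩ : ∃ U : ℝ, U = (((B * H : ℕ) : ℝ)) ^ E := ⟨_, rfl⟩
  have hBH : (1 : ℝ) ≤ ((B * H : ℕ) : ℝ) := by
    push_cast
    nlinarith
  have hU1 : 1 ≤ U := by rw [hU]; exact one_le_pow₀ hBH
  have hlUe : Real.log U = E * (Real.log B + Real.log H) := by
    rw [hU, Real.log_pow]
    push_cast
    rw [Real.log_mul (by linarith) hH0.ne']
  have hlU : 1 + Real.log U ≤ D * (1 + Real.log H) := by
    rw [hlUe, hD]
    nlinarith [mul_nonneg hE0 hlB, mul_nonneg hE0 hlH, mul_nonneg (mul_nonneg hE0 hlB) hlH]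
  have hlq : 1 + Real.log U / Real.log (2 * (H : ℝ) ^ 2) ≤ D2 := by
    have h1 : Real.log (2 * (H : ℝ) ^ 2) = Real.log 2 + 2 * Real.log H := by
      rw [Real.log_mul (by norm_num) (by positivity), Real.log_pow]
      push_cast
      ring
    have h2 : 0 < Real.log 2 + 2 * Real.log H := by linarith
    rw [h1, hlUe, hD2]
    have h3 : E * (Real.log B + Real.log H) / (Real.log 2 + 2 * Real.log H) ≤ E * (Real.log B / Real.log 2 + 1) := by
      rw [div_le_iff₀ h2]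
      have h4 : Real.log B + Real.log H ≤ (Real.log B / Real.log 2 + 1) * (Real.log 2 + 2 * Real.log H) := by
        have h5 : (Real.log B / Real.log 2 + 1) * (Real.log 2 + 2 * Real.log H) =
            Real.log B + Real.log 2 + 2 * Real.log H + Real.log B / Real.log 2 * (2 * Real.log H) := by
          field_simp
          ring
        rw [h5]
        have h6 : 0 ≤ Real.log B / Real.log 2 * (2 * Real.log H) := by positivity
        linarith
      calc E * (Real.log B + Real.log H) ≤ E * ((Real.log B / Real.log 2 + 1) * (Real.log 2 + 2 * Real.log H)) := by gcongr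
        _ = _ := by ring
    linarith
  have hlr : 1 + Real.log U / Real.log (2 * H) ≤ D3 := by
    have h1 : Real.log (2 * (H : ℝ)) = Real.log 2 + Real.log H := Real.log_mul (by norm_num) hH0.ne'
    have h2 : 0 < Real.log 2 + Real.log H := by linarith
    rw [h1, hlUe, hD3]
    have h3 : E * (Real.log B + Real.log H) / (Real.log 2 + Real.log H) ≤ E * (Real.log B / Real.log 2 + 1) := by
      rw [div_le_iff₀ h2]
      have h4 : Real.log B + Real.log H ≤ (Real.log B / Real.log 2 + 1) * (Real.log 2 + Real.log H) := by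
        have h5 : (Real.log B / Real.log 2 + 1) * (Real.log 2 + Real.log H) =
            Real.log B + Real.log 2 + Real.log H + Real.log B / Real.log 2 * Real.log H := by
          field_simp
          ring
        rw [h5]
        have h6 : 0 ≤ Real.log B / Real.log 2 * Real.log H := by positivity
        linarith
      calc E * (Real.log B + Real.log H) ≤ E * ((Real.log B / Real.log 2 + 1) * (Real.log 2 + Real.log H)) := by gcongr
        _ = _ := by ring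
    linarith
  have hLm : Lm H U ≤ (D3 + 2 * D) * (H : ℝ) ^ 2 := Lm_le H U D D3 hH (by linarith) hlr hlU
  -- the sets
  obtain ⟨T, hT⟩ : ∃ T : Finset (Ix j → ℤ), T = (box j H).filter (fun c => ∃ P : Fin 2 → ℤ, eval P (G + pol c) = 0) := ⟨_, rfl⟩
  have hcard : Set.ncard {L : MvPolynomial (Fin 2) ℤ | L.totalDegree ≤ j ∧ (∀ m, |L.coeff m| ≤ (H : ℤ)) ∧
      ∃ P : Fin 2 → ℤ, eval P (G + L) = 0} = T.card := by
    rw [pol_set j H (fun L => ∃ P : Fin 2 → ℤ, eval P (G + L) = 0), ← Set.ncard_coe_finset, hT]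
    congr 1
    ext c
    simp
  obtain ⟨T1, hT1⟩ : ∃ T1 : Finset (Ix j → ℤ), T1 = T.filter (fun c => ∃ P : Fin 2 → ℤ, eval P (G + pol c) = 0 ∧
      max |(P 0 : ℝ)| |(P 1 : ℝ)| ≤ K * H) := ⟨_, rfl⟩
  obtain ⟨T2, hT2⟩ : ∃ T2 : Finset (Ix j → ℤ), T2 = T.filter (fun c => ∃ P : Fin 2 → ℤ, eval P (G + pol c) = 0 ∧
      K * H ≤ max |(P 0 : ℝ)| |(P 1 : ℝ)| ∧ max |(P 0 : ℝ)| |(P 1 : ℝ)| ≤ U) := ⟨_, rfl⟩
  obtain ⟨T3, hT3⟩ : ∃ T3 : Finset (Ix j → ℤ), T3 = T.filter (fun c => ∃ P : Fin 2 → ℤ, eval P (G + pol c) = 0 ∧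
      ∃ i, ((B * H : ℕ) : ℤ) ^ E < |P i|) := ⟨_, rfl⟩
  have hbox : ∀ c ∈ T, ∀ p, |c p| ≤ (H : ℤ) := by
    intro c hc
    rw [hT, Finset.mem_filter] at hc
    exact mem_box.1 hc.1
  have hsub : T ⊆ T1 ∪ T2 ∪ T3 := by
    intro c hc
    have hc' := hc
    rw [hT, Finset.mem_filter] at hc'
    obtain ⟨P, hP⟩ := hc'.2
    rw [Finset.mem_union, Finset.mem_union, hT1, hT2, hT3, Finset.mem_filter, Finset.mem_filter, Finset.mem_filter]
    rcases le_or_gt (max |(P 0 : ℝ)| |(P 1 : ℝ)|) (K * H) with h1 | h1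
    · exact Or.inl (Or.inl ⟨hc, P, hP, h1⟩)
    rcases le_or_gt (max |(P 0 : ℝ)| |(P 1 : ℝ)|) U with h2 | h2
    · exact Or.inl (Or.inr ⟨hc, P, hP, h1.le, h2⟩)
    · refine Or.inr ⟨hc, P, hP, ?_⟩
      rcases lt_max_iff.1 h2 with h3 | h3
      · refine ⟨0, ?_⟩
        rw [hU] at h3
        exact_mod_cast h3
      · refine ⟨1, ?_⟩
        rw [hU] at h3
        exact_mod_cast h3
  have hcT : (T.card : ℝ) ≤ (T1.card : ℝ) + T2.card + T3.card := by
    have h1 := Finset.card_le_card hsub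
    have h2 := Finset.card_union_le (T1 ∪ T2) T3
    have h3 := Finset.card_union_le T1 T2
    have h4 : T.card ≤ T1.card + T2.card + T3.card := by omega
    exact_mod_cast h4
  obtain ⟨V, hV⟩ : ∃ V : ℝ, V = (2 * (H : ℝ) + 1) ^ (M - 1) := ⟨_, rfl⟩
  have hV0 : 0 ≤ V := by rw [hV]; positivity
  obtain ⟨lam, hlam⟩ : ∃ lam : ℝ, lam = if j = 2 then 1 + Real.log H else 1 := ⟨_, rfl⟩
  have hlam1 : 1 ≤ lam := by
    rw [hlam]
    split_ifs
    · linarith
    · exact le_refl _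
  have hlamj : (if j = 2 then 1 + Real.log H else 1 : ℝ) ≤ lam := by rw [hlam]
  have hc1 : (T1.card : ℝ) ≤ C1 * V * lam := by
    have h1 := hsml H hH (fun x y => eval ![x, y] G) T1 (by
      intro c hc
      rw [hT1, Finset.mem_filter] at hc
      refine ⟨hbox c hc.1, ?_⟩
      obtain ⟨P, hP, hP'⟩ := hc.2
      refine ⟨P 0, P 1, hP', ?_⟩
      have h2 : ![P 0, P 1] = P := by
        funext i
        fin_cases i <;> rfl
      have h3 := ar_ev (Pool.Agent.H88.A2.pol_deg c) P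
      rw [ar_pol] at h3
      show eval ![P 0, P 1] G + ev j (co c) (P 0) (P 1) = 0
      rw [h2, h3, ← map_add]
      exact hP)
    rw [← hM, ← hV] at h1
    refine h1.trans ?_
    gcongr
  have hc2 : (T2.card : ℝ) ≤ C2 * ((D3 + 2 * D) + D2) * V * lam := by
    have h1 := hmid H U hH hU1 T2 (by
      intro c hc
      rw [hT2, Finset.mem_filter] at hc
      exact ⟨hbox c hc.1, hc.2⟩)
    rw [← hM, ← hV] at h1
    refine h1.trans ?_
    have h2 := light_le H M (min j (n - 2)) (by omega) (by omega)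
    rw [← hV] at h2
    have h4 : Lm H U * (2 * (H : ℝ) + 1) ^ (M - (min j (n - 2) + 1)) ≤ (D3 + 2 * D) * (V * lam) := by
      calc _ ≤ ((D3 + 2 * D) * (H : ℝ) ^ 2) * (2 * (H : ℝ) + 1) ^ (M - (min j (n - 2) + 1)) := by gcongr
        _ = (D3 + 2 * D) * ((H : ℝ) ^ 2 * (2 * (H : ℝ) + 1) ^ (M - (min j (n - 2) + 1))) := by ring
        _ ≤ (D3 + 2 * D) * V := by
            refine mul_le_mul_of_nonneg_left h2 (by linarith)
        _ = (D3 + 2 * D) * (V * 1) := by rw [mul_one]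
        _ ≤ (D3 + 2 * D) * (V * lam) := by
            refine mul_le_mul_of_nonneg_left ?_ (by linarith)
            exact mul_le_mul_of_nonneg_left hlam1 hV0
    have h5 : (1 + Real.log U / Real.log (2 * (H : ℝ) ^ 2)) * V ≤ D2 * (V * lam) := by
      calc _ ≤ D2 * V := by gcongr
        _ = D2 * (V * 1) := by rw [mul_one]
        _ ≤ _ := by gcongr
    calc C2 * (Lm H U * (2 * (H : ℝ) + 1) ^ (M - (min j (n - 2) + 1)) +
          (1 + Real.log U / Real.log (2 * (H : ℝ) ^ 2)) * V)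
        ≤ C2 * ((D3 + 2 * D) * (V * lam) + D2 * (V * lam)) := by gcongr
      _ = _ := by ring
  have hc3 : (T3.card : ℝ) ≤ C3 * V * lam := by
    have h1 := hlrg B H hB hGB hH T3 (by
      intro c hc
      rw [hT3, Finset.mem_filter] at hc
      exact ⟨hbox c hc.1, hc.2⟩)
    rw [← hM, ← hV] at h1
    refine h1.trans ?_
    calc C3 * V = C3 * V * 1 := (mul_one _).symm
      _ ≤ _ := mul_le_mul_of_nonneg_left hlam1 (mul_nonneg hC3 hV0)
  have hVH : V ≤ 3 ^ (M - 1) * (H : ℝ) ^ (M - 1) := by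
    rw [hV, ← mul_pow]
    exact pow_le_pow_left₀ (by positivity) (by linarith) _
  rw [hcard, hM1, ← hlam]
  calc (T.card : ℝ) ≤ C1 * V * lam + C2 * ((D3 + 2 * D) + D2) * V * lam + C3 * V * lam :=
        hcT.trans (add_le_add (add_le_add hc1 hc2) hc3)
    _ = (C1 + C2 * ((D3 + 2 * D) + D2) + C3) * V * lam := by ring
    _ ≤ (C1 + C2 * ((D3 + 2 * D) + D2) + C3) * (3 ^ (M - 1) * (H : ℝ) ^ (M - 1)) * lam := by gcongr
    _ = _ := by ring

end Pool.Agent.H82.A3
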