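import Pool.Agent.H12.A3.Arr2
import Pool.Agent.H88.A2.Gd
import Pool.Agent.H8.AA.Box

/-! # [H82 A3 CH] The middle range in one chart, counted

`F c` = the array `g + co c`. `top c`: its terms of degree `≥ n - 1`. For `c` with a zero `P c` in the chart: `P c ∈ L (top c)` (light) or not (heavy).
Light: `fib` with `J = {ix i 0 : i ≤ min j (n-2)}`, in a fibre `top c` is fixed and `c` is determined by `P c` (`∑ δ_i x^i = 0`, `|δ_i| ≤ 2H < |x|`).
Heavy: `fib` with `J = {ix 0 0}`. -/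

namespace Pool.Agent.H82.A3

open Finset Polynomial Pool.Agent.H8.AA Pool.Agent.H88.A2 Pool.Agent.H12.A3

/-- digits: a vanishing sum with small digits -/
theorem dig0 (x : ℤ) : ∀ (m : ℕ) (δ : ℕ → ℤ), (∀ i ≤ m, |δ i| < |x|) → ∑ i ∈ range (m + 1), δ i * x ^ i = 0 → ∀ i ≤ m, δ i = 0
  | 0, δ, _, h0, i, hi => by
    have h1 : i = 0 := by omega
    rw [h1]
    simpa using h0
  | m + 1, δ, hδ, h0, i, hi => by
    rw [sum_range_succ'] at h0
    have h1 : ∑ k ∈ range (m + 1), δ (k + 1) * x ^ (k + 1) = x * ∑ k ∈ range (m + 1), δ (k + 1) * x ^ k := by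
      rw [mul_sum]
      refine sum_congr rfl fun k _ => ?_
      ring
    rw [h1, pow_zero, mul_one] at h0
    have hx : x ≠ 0 := by
      intro hx
      have := hδ 0 (by omega)
      rw [hx, abs_zero] at this
      exact absurd (abs_nonneg (δ 0)) (not_le.2 this)
    have h2 : x ∣ δ 0 := ⟨-∑ k ∈ range (m + 1), δ (k + 1) * x ^ k, by linarith⟩
    have h3 : δ 0 = 0 := Int.eq_zero_of_abs_lt_dvd ((abs_dvd _ _).2 h2) (hδ 0 (by omega))
    rw [h3, add_zero] at h0
    have h4 : ∑ k ∈ range (m + 1), δ (k + 1) * x ^ k = 0 := by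
      rcases mul_eq_zero.1 h0 with h | h
      · exact absurd h hx
      · exact h
    have h5 := dig0 x m (fun k => δ (k + 1)) (fun k hk => hδ (k + 1) (by omega)) h4
    rcases Nat.eq_zero_or_pos i with h | h
    · rw [h]
      exact h3
    · have h6 := h5 (i - 1) (by omega)
      have h7 : i - 1 + 1 = i := by omega
      simp only [h7] at h6
      exact h6

/-- the array `g + co c` -/
def Fc {j : ℕ} (g : ℕ → ℕ → ℤ) (c : Ix j → ℤ) (a b : ℕ) : ℤ := g a b + co c a b

/-- the terms of degree at least `n - 1` -/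
def top {j : ℕ} (n : ℕ) (g : ℕ → ℕ → ℤ) (c : Ix j → ℤ) (a b : ℕ) : ℤ := if n - 1 ≤ a + b then Fc g c a b else 0

theorem Fc_le {j H B : ℕ} (hB : 2 ≤ B) (hH : 1 ≤ H) {g : ℕ → ℕ → ℤ} (hg : ∀ a b, |g a b| + 1 ≤ (B : ℤ)) {c : Ix j → ℤ}
    (hc : ∀ p, |c p| ≤ (H : ℤ)) (a b : ℕ) : |(Fc g c a b : ℝ)| ≤ B * H := by
  have h1 : |Fc g c a b| ≤ (B : ℤ) * H := by
    unfold Fc
    have h2 : |co c a b| ≤ (H : ℤ) := by
      unfold co
      split_ifs with h
      · exact hc _
      · rw [abs_zero]; positivity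
    have h3 := hg a b
    have hB' : (2 : ℤ) ≤ B := by exact_mod_cast hB
    have hH' : (1 : ℤ) ≤ H := by exact_mod_cast hH
    calc |g a b + co c a b| ≤ |g a b| + |co c a b| := abs_add_le _ _
      _ ≤ ((B : ℤ) - 1) + H := by linarith
      _ ≤ (B : ℤ) * H := by nlinarith
  have h2 : ((|Fc g c a b| : ℤ) : ℝ) ≤ (((B : ℤ) * H : ℤ) : ℝ) := by exact_mod_cast h1
  push_cast at h2
  exact h2

theorem g_le {B : ℕ} {g : ℕ → ℕ → ℤ} (hg : ∀ a b, |g a b| + 1 ≤ (B : ℤ)) (a b : ℕ) : |(g a b : ℝ)| ≤ B := by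
  have h2 : |g a b| ≤ (B : ℤ) := by have := hg a b; linarith
  exact_mod_cast h2

theorem top_n {j n : ℕ} (hj : j < n) (g : ℕ → ℕ → ℤ) (c : Ix j → ℤ) {a b : ℕ} (h : a + b = n) : top n g c a b = g a b := by
  unfold top Fc co
  rw [if_pos (by omega), dif_neg (by omega), add_zero]

theorem top_congr {j n : ℕ} (hn : 2 ≤ n) (g : ℕ → ℕ → ℤ) {c c' : Ix j → ℤ}
    (h : ∀ p : Ix j, ¬ (p.1.2.val = 0 ∧ p.1.1.val ≤ n - 2) → c p = c' p) : top n g c = top n g c' := by
  funext a b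
  unfold top
  split_ifs with h1
  · unfold Fc co
    split_ifs with h2
    · rw [h (ix a b h2)]
      intro h3
      have h4 : b = 0 := h3.1
      have h5 : a ≤ n - 2 := h3.2
      omega
    · rfl
  · rfl

theorem fm_top {j n : ℕ} (g : ℕ → ℕ → ℤ) (c : Ix j → ℤ) {k : ℕ} (hk : n - 1 ≤ k) : fm (top n g c) k = fm (Fc g c) k := by
  unfold fm
  refine sum_congr rfl fun i hi => ?_
  have hi' := mem_range.1 hi
  unfold top
  rw [if_pos (by omega)]

/-- the zero is a point far out near a branch -/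
theorem pt_of {j n H B : ℕ} (hn : 2 ≤ n) (hB : 2 ≤ B) (hH : 1 ≤ H) {g : ℕ → ℕ → ℤ} (hg : ∀ a b, |g a b| + 1 ≤ (B : ℤ))
    {c : Ix j → ℤ} (hc : ∀ p, |c p| ≤ (H : ℤ)) {K : ℝ} (hK : 1 ≤ K) {x y : ℤ} (hxy : |y| ≤ |x|) (hx : K * H ≤ |(x : ℝ)|)
    (h0 : ev n (Fc g c) x y = 0) : Pt n (top n g c) H ((n : ℝ) ^ 2 * B) K x y := by
  refine ⟨hxy, hx, ?_⟩
  have hH' : (1 : ℝ) ≤ (H : ℝ) := by exact_mod_cast hH
  have hB' : (2 : ℝ) ≤ (B : ℝ) := by exact_mod_cast hB
  have hx1 : 1 ≤ |(x : ℝ)| := by nlinarith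
  have hx0 : 0 < |(x : ℝ)| := by linarith
  have hxz : (x : ℝ) ≠ 0 := abs_pos.1 hx0
  have hxi : x ≠ 0 := by exact_mod_cast hxz
  have ht : |(y : ℝ) / x| ≤ 1 := by
    rw [abs_div, div_le_one hx0]
    exact_mod_cast hxy
  rw [fm_top g c (by omega : n - 1 ≤ n), fm_top g c (le_refl _)]
  obtain ⟨t, htd⟩ : ∃ t : ℝ, t = (y : ℝ) / x := ⟨_, rfl⟩
  rw [← htd] at ht ⊢
  have h1 := ev_eq n (Fc g c) x y hxi
  rw [h0, ← htd] at h1
  push_cast at h1
  have h2 : ∑ k ∈ range (n + 1), (1 / (x : ℝ)) ^ (n - k) * aeval t (fm (Fc g c) k) = 0 := by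
    rcases mul_eq_zero.1 h1.symm with h | h
    · exact absurd h (pow_ne_zero _ hxz)
    · exact h
  obtain ⟨m, rfl⟩ : ∃ m, n = m + 2 := ⟨n - 2, by omega⟩
  rw [sum_range_succ, sum_range_succ] at h2
  have e1 : m + 2 - (m + 1) = 1 := by omega
  have e2 : m + 2 - (m + 2) = 0 := by omega
  have e3 : m + 2 - 1 = m + 1 := by omega
  rw [e1, e2, pow_one, pow_zero, one_mul] at h2
  rw [e3]
  have h3 : (x : ℝ) * aeval t (fm (Fc g c) (m + 2)) + aeval t (fm (Fc g c) (m + 1)) =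
      -(x : ℝ) * ∑ k ∈ range (m + 1), (1 / (x : ℝ)) ^ (m + 2 - k) * aeval t (fm (Fc g c) k) := by
    have h4 : aeval t (fm (Fc g c) (m + 2)) = -(∑ k ∈ range (m + 1), (1 / (x : ℝ)) ^ (m + 2 - k) * aeval t (fm (Fc g c) k)) -
        1 / (x : ℝ) * aeval t (fm (Fc g c) (m + 1)) := by linarith
    rw [h4]
    field_simp
    ring
  rw [h3, abs_mul, abs_neg]
  have h5 : |∑ k ∈ range (m + 1), (1 / (x : ℝ)) ^ (m + 2 - k) * aeval t (fm (Fc g c) k)| ≤
      (((m + 2 : ℕ) : ℝ) ^ 2 * (B * H)) / |(x : ℝ)| ^ 2 := by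
    refine (abs_sum_le_sum_abs _ _).trans ?_
    have h6 : ∀ k ∈ range (m + 1), |(1 / (x : ℝ)) ^ (m + 2 - k) * aeval t (fm (Fc g c) k)| ≤
        1 / |(x : ℝ)| ^ 2 * (((m + 2 : ℕ) : ℝ) * (B * H)) := by
      intro k hk
      have hk' := mem_range.1 hk
      rw [abs_mul]
      refine mul_le_mul ?_ ?_ (abs_nonneg _) (by positivity)
      · rw [abs_pow, abs_div, abs_one, one_div, one_div, inv_pow]
        rw [inv_le_inv₀ (by positivity) (by positivity)]
        exact pow_le_pow_right₀ hx1 (by omega)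
      · rw [fm_aeval]
        refine (abs_sum_le_sum_abs _ _).trans ?_
        calc ∑ i ∈ range (k + 1), |(Fc g c (k - i) i : ℝ) * t ^ i| ≤ ∑ _i ∈ range (k + 1), (B * H : ℝ) := by
              refine sum_le_sum fun i _ => ?_
              rw [abs_mul, abs_pow]
              calc |(Fc g c (k - i) i : ℝ)| * |t| ^ i ≤ (B * H : ℝ) * 1 :=
                    mul_le_mul (Fc_le hB hH hg hc _ _) (pow_le_one₀ (abs_nonneg _) ht) (by positivity) (by positivity)
                _ = _ := mul_one _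
          _ = ((k + 1 : ℕ) : ℝ) * (B * H) := by rw [sum_const, card_range, nsmul_eq_mul]
          _ ≤ _ := by
              have : ((k + 1 : ℕ) : ℝ) ≤ ((m + 2 : ℕ) : ℝ) := by exact_mod_cast (by omega : k + 1 ≤ m + 2)
              gcongr
    calc _ ≤ ∑ _k ∈ range (m + 1), 1 / |(x : ℝ)| ^ 2 * (((m + 2 : ℕ) : ℝ) * (B * H)) := sum_le_sum h6
      _ = ((m + 1 : ℕ) : ℝ) * (1 / |(x : ℝ)| ^ 2 * (((m + 2 : ℕ) : ℝ) * (B * H))) := by
          rw [sum_const, card_range, nsmul_eq_mul]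
      _ ≤ ((m + 2 : ℕ) : ℝ) * (1 / |(x : ℝ)| ^ 2 * (((m + 2 : ℕ) : ℝ) * (B * H))) := by
          have : ((m + 1 : ℕ) : ℝ) ≤ ((m + 2 : ℕ) : ℝ) := by exact_mod_cast (by omega : m + 1 ≤ m + 2)
          gcongr
      _ = _ := by ring
  calc |(x : ℝ)| * |∑ k ∈ range (m + 1), (1 / (x : ℝ)) ^ (m + 2 - k) * aeval t (fm (Fc g c) k)|
      ≤ |(x : ℝ)| * ((((m + 2 : ℕ) : ℝ) ^ 2 * (B * H)) / |(x : ℝ)| ^ 2) := by gcongr
    _ = ((m + 2 : ℕ) : ℝ) ^ 2 * B * H / |(x : ℝ)| := by field_simp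

/-- the coordinates of the powers of `x` -/
def Jx (j m : ℕ) (h : m ≤ j) : Finset (Ix j) := univ.image (fun i : Fin (m + 1) => ix (n := j) (i : ℕ) 0 (by omega))

theorem Jx_card (j m : ℕ) (h : m ≤ j) : (Jx j m h).card = m + 1 := by
  unfold Jx
  rw [card_image_of_injective, card_univ, Fintype.card_fin]
  intro i i' hii
  have h2 := congrArg (fun q : Ix j => q.1.1.val) hii
  exact Fin.ext h2

theorem mem_Jx {j m : ℕ} {h : m ≤ j} {p : Ix j} : p ∈ Jx j m h ↔ p.1.2.val = 0 ∧ p.1.1.val ≤ m := by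
  unfold Jx
  rw [mem_image]
  constructor
  · rintro ⟨i, _, rfl⟩
    exact ⟨rfl, by have := i.2; show (i : ℕ) ≤ m; omega⟩
  · rintro ⟨h1, h2⟩
    refine ⟨⟨p.1.1.val, by omega⟩, mem_univ _, ?_⟩
    apply Subtype.ext
    apply Prod.ext
    · exact Fin.ext rfl
    · exact Fin.ext h1.symm

/-- two vectors that differ only in the powers of `x` and have the same zero far out are equal -/
theorem inj_x {j n H : ℕ} (hjn : j < n) (g : ℕ → ℕ → ℤ) {c c' : Ix j → ℤ} (hc : ∀ p, |c p| ≤ (H : ℤ)) (hc' : ∀ p, |c' p| ≤ (H : ℤ))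
    (h : ∀ p : Ix j, ¬ p.1.2.val = 0 → c p = c' p) {x y : ℤ} (hx : 2 * (H : ℤ) < |x|)
    (h0 : ev n (Fc g c) x y = 0) (h0' : ev n (Fc g c') x y = 0) : c = c' := by
  have h1 : ∑ k ∈ range (n + 1), (co c k 0 - co c' k 0) * x ^ k = 0 := by
    have h2 : ev n (Fc g c) x y - ev n (Fc g c') x y = ∑ k ∈ range (n + 1), (co c k 0 - co c' k 0) * x ^ k := by
      unfold ev
      rw [← sum_sub_distrib]
      refine sum_congr rfl fun k _ => ?_
      rw [← sum_sub_distrib, sum_eq_single 0]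
      · unfold Fc
        simp
        ring
      · intro b hb hb0
        unfold Fc
        have h3 : co c (k - b) b = co c' (k - b) b := by
          unfold co
          split_ifs with h4
          · exact h _ hb0
          · rfl
        rw [h3]
        ring
      · intro h3
        exact absurd (mem_range.2 (Nat.succ_pos k)) h3
    rw [← h2, h0, h0', sub_zero]
  have h2 := dig0 x n (fun k => co c k 0 - co c' k 0) (fun k _ => by
    have h3 : |co c k 0| ≤ (H : ℤ) := by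
      unfold co
      split_ifs
      · exact hc _
      · rw [abs_zero]; positivity
    have h4 : |co c' k 0| ≤ (H : ℤ) := by
      unfold co
      split_ifs
      · exact hc' _
      · rw [abs_zero]; positivity
    calc |co c k 0 - co c' k 0| ≤ |co c k 0| + |co c' k 0| := abs_sub _ _
      _ ≤ 2 * H := by linarith
      _ < |x| := hx) h1
  funext p
  by_cases hp : p.1.2.val = 0
  · have h3 := h2 p.1.1.val (by have := p.2; omega)
    have h4 : p.1.1.val + 0 ≤ j := by have := p.2; omega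
    have h5 : p = ix p.1.1.val 0 h4 := by
      apply Subtype.ext
      apply Prod.ext
      · exact Fin.ext rfl
      · exact Fin.ext hp
    simp only [co_of_le _ h4] at h3
    rw [← h5] at h3
    linarith
  · exact h p hp

/-- the number of light points -/
noncomputable def Lm (H : ℕ) (U : ℝ) : ℝ := (H : ℝ) ^ 2 * (1 + Real.log U / Real.log (2 * H)) + H * √H * (1 + Real.log U)

theorem Lm_nonneg {H : ℕ} {U : ℝ} (hH : 1 ≤ H) (hU : 1 ≤ U) : 0 ≤ Lm H U := by
  have h1 : (1 : ℝ) ≤ (H : ℝ) := by exact_mod_cast hH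
  have h2 : 0 ≤ Real.log U := Real.log_nonneg hU
  have h3 : 0 ≤ Real.log (2 * H) := Real.log_nonneg (by linarith)
  unfold Lm
  positivity

theorem ch1 (n j : ℕ) (hn : 4 ≤ n) (hjn : j < n) (g : ℕ → ℕ → ℤ) (B : ℕ) (A : ℝ) (hB : 2 ≤ B)
    (hA : 1 ≤ A) (hg : ∀ a b, |g a b| + 1 ≤ (B : ℤ)) (hz : Nz n g) (hgd : Gd n (B / A) g) :
    ∃ C K : ℝ, 0 ≤ C ∧ 1 ≤ K ∧ ∀ (H : ℕ) (U : ℝ), 1 ≤ H → 1 ≤ U → ∀ T : Finset (Ix j → ℤ),
    (∀ c ∈ T, (∀ p, |c p| ≤ (H : ℤ)) ∧ ∃ x y : ℤ, |y| ≤ |x| ∧ K * H ≤ |(x : ℝ)| ∧ |(x : ℝ)| ≤ U ∧ ev n (Fc g c) x y = 0) →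
    (T.card : ℝ) ≤ C * (Lm H U *
        (2 * (H : ℝ) + 1) ^ (Fintype.card (Ix j) - (min j (n - 2) + 1)) +
      (1 + Real.log U / Real.log (2 * (H : ℝ) ^ 2)) * (2 * (H : ℝ) + 1) ^ (Fintype.card (Ix j) - 1)) := by
  classical
  have hB' : (2 : ℝ) ≤ (B : ℝ) := by exact_mod_cast hB
  obtain ⟨C, K, hC, hK, harr⟩ := arrs n (by omega) B A ((n : ℝ) ^ 2 * B) (by linarith) hA (by positivity)
  refine ⟨C, K + 3, by linarith, by linarith, ?_⟩
  intro H U hH hU T hT
  have hH' : (1 : ℝ) ≤ (H : ℝ) := by exact_mod_cast hH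
  have hlU : 0 ≤ Real.log U := Real.log_nonneg hU
  have hlH : 0 < Real.log (2 * (H : ℝ) ^ 2) := by
    apply Real.log_pos
    have : 1 ≤ (H : ℝ) ^ 2 := one_le_pow₀ hH'
    linarith
  -- the light points
  have hL : ∀ e : ℕ → ℕ → ℤ, Tp n B H e ∧ Nz n e ∧ Gd n (B / A) e → ∃ L : Finset (ℤ × ℤ),
      (L.card : ℝ) ≤ C * Lm H U ∧
      ∀ e' : ℕ → ℕ → ℤ, (∀ j ≤ n, e' (n - j) j = e (n - j) j) → (∀ b < n, |(e' 0 b : ℝ)| ≤ B * H) →
      ∀ S : Finset (ℤ × ℤ), (∀ P ∈ S, P ∉ L ∧ Pt n e H ((n : ℝ) ^ 2 * B) K P.1 P.2 ∧ |(P.1 : ℝ)| ≤ U ∧ |ev n e' P.1 P.2| ≤ (H : ℤ)) →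
      (S.card : ℝ) ≤ C * (1 + Real.log U / Real.log (2 * (H : ℝ) ^ 2)) :=
    fun e he => harr e H U hH hU he.1 he.2.1 he.2.2
  choose! L hL1 hL2 using hL
  -- properties of top c
  have htop : ∀ c : Ix j → ℤ, (∀ p, |c p| ≤ (H : ℤ)) → Tp n B H (top n g c) ∧ Nz n (top n g c) ∧ Gd n (B / A) (top n g c) := by
    intro c hc
    refine ⟨⟨?_, ?_⟩, ?_, ?_⟩
    · intro i hi
      rw [top_n hjn g c (by omega)]
      exact g_le hg _ _
    · intro i hi
      unfold top
      rw [if_pos (by omega)]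
      exact Fc_le hB hH hg hc _ _
    · exact nz_congr (fun a b hab => (top_n hjn g c hab).symm) hz
    · exact gd_congr (fun a b hab => (top_n hjn g c hab).symm) hgd
  -- the zeros
  have hP : ∀ c : Ix j → ℤ, ∃ P : ℤ × ℤ, c ∈ T → |P.2| ≤ |P.1| ∧ (K + 3) * H ≤ |(P.1 : ℝ)| ∧ |(P.1 : ℝ)| ≤ U ∧
      ev n (Fc g c) P.1 P.2 = 0 := by
    intro c
    by_cases hc : c ∈ T
    · obtain ⟨x, y, h⟩ := (hT c hc).2
      exact ⟨(x, y), fun _ => h⟩
    · exact ⟨0, fun h => absurd h hc⟩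
  choose P hP using hP
  have hx2 : ∀ c ∈ T, 2 * (H : ℤ) < |(P c).1| := by
    intro c hc
    have h1 := (hP c hc).2.1
    have h2 : (2 * (H : ℝ)) < |((P c).1 : ℝ)| := by nlinarith
    exact_mod_cast h2
  have hKx : ∀ c ∈ T, K * H ≤ |((P c).1 : ℝ)| := by
    intro c hc
    have h1 := (hP c hc).2.1
    nlinarith
  obtain ⟨TL, hTL⟩ : ∃ TL, TL = T.filter (fun c => P c ∈ L (top n g c)) := ⟨_, rfl⟩
  obtain ⟨TH, hTH⟩ : ∃ TH, TH = T.filter (fun c => ¬ P c ∈ L (top n g c)) := ⟨_, rfl⟩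
  have hsum : T.card = TL.card + TH.card := by
    rw [hTL, hTH]
    exact (card_filter_add_card_filter_not _).symm
  -- light
  obtain ⟨M1, hM1⟩ : ∃ M1 : ℝ, M1 = C * Lm H U := ⟨_, rfl⟩
  have hM10 : 0 ≤ M1 := by rw [hM1]; exact mul_nonneg (by linarith) (Lm_nonneg hH hU)
  have hmin : min j (n - 2) ≤ j := min_le_left _ _
  have hTLc : TL.card ≤ ⌊M1⌋₊ * (2 * H + 1) ^ (Fintype.card (Ix j) - (Jx j (min j (n - 2)) hmin).card) := by
    refine fib (Jx j (min j (n - 2)) hmin) H ⌊M1⌋₊ TL (fun c hc => ?_) ?_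
    · rw [hTL, mem_filter] at hc
      exact (hT c hc.1).1
    · intro c0 hc0 T' hT'
      apply Nat.le_floor
      have hc0' := hc0
      rw [hTL, mem_filter] at hc0'
      have hbox0 := (hT c0 hc0'.1).1
      have hmemT : ∀ c ∈ T', c ∈ T := by
        intro c hc
        have := (hT' c hc).1
        rw [hTL, mem_filter] at this
        exact this.1
      have htc : ∀ c ∈ T', top n g c = top n g c0 := by
        intro c hc
        refine top_congr (by omega) g fun p hp => (hT' c hc).2 p ?_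
        rw [mem_Jx]
        intro h1
        exact hp ⟨h1.1, h1.2.trans (min_le_right _ _)⟩
      have hinj : Set.InjOn P (T' : Set (Ix j → ℤ)) := by
        intro c hc c' hc' hcc
        refine inj_x hjn g (hT c (hmemT c hc)).1 (hT c' (hmemT c' hc')).1 (fun p hp => ?_) (hx2 c (hmemT c hc))
          (hP c (hmemT c hc)).2.2.2 ?_
        · rw [(hT' c hc).2 p, (hT' c' hc').2 p]
          · rw [mem_Jx]; intro h1; exact hp h1.1
          · rw [mem_Jx]; intro h1; exact hp h1.1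
        · rw [hcc]
          exact (hP c' (hmemT c' hc')).2.2.2
      rw [← card_image_of_injOn hinj]
      have hsub : T'.image P ⊆ L (top n g c0) := by
        intro Q hQ
        obtain ⟨c, hc, rfl⟩ := mem_image.1 hQ
        have h1 := (hT' c hc).1
        rw [hTL, mem_filter] at h1
        rw [← htc c hc]
        exact h1.2
      have h1 : ((T'.image P).card : ℝ) ≤ ((L (top n g c0)).card : ℝ) := by exact_mod_cast card_le_card hsub
      rw [hM1]
      exact h1.trans (hL1 _ (htop c0 hbox0))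
  -- heavy
  obtain ⟨M2, hM2⟩ : ∃ M2 : ℝ, M2 = C * (1 + Real.log U / Real.log (2 * (H : ℝ) ^ 2)) := ⟨_, rfl⟩
  have hM20 : 0 ≤ M2 := by rw [hM2]; positivity
  have hTHc : TH.card ≤ ⌊M2⌋₊ * (2 * H + 1) ^ (Fintype.card (Ix j) - ({ix 0 0 (by omega)} : Finset (Ix j)).card) := by
    refine fib {ix 0 0 (by omega)} H ⌊M2⌋₊ TH (fun c hc => ?_) ?_
    · rw [hTH, mem_filter] at hc
      exact (hT c hc.1).1
    · intro c0 hc0 T' hT'
      apply Nat.le_floor
      have hc0' := hc0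
      rw [hTH, mem_filter] at hc0'
      have hbox0 := (hT c0 hc0'.1).1
      have hmemT : ∀ c ∈ T', c ∈ T := by
        intro c hc
        have := (hT' c hc).1
        rw [hTH, mem_filter] at this
        exact this.1
      have hagree : ∀ c ∈ T', ∀ p : Ix j, p ≠ ix 0 0 (by omega) → c p = c0 p := fun c hc p hp => (hT' c hc).2 p (by simpa using hp)
      have htc : ∀ c ∈ T', top n g c = top n g c0 := by
        intro c hc
        refine top_congr (by omega) g fun p hp => hagree c hc p ?_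
        intro h1
        apply hp
        rw [h1]
        exact ⟨rfl, Nat.zero_le _⟩
      -- the array without the free constant
      obtain ⟨e', he'⟩ : ∃ e' : ℕ → ℕ → ℤ, e' = fun a b => if a = 0 ∧ b = 0 then g 0 0 else Fc g c0 a b := ⟨_, rfl⟩
      have hval : ∀ c ∈ T', ∀ x y : ℤ, ev n (Fc g c) x y = ev n e' x y + c (ix 0 0 (by omega)) := by
        intro c hc x y
        unfold ev
        rw [sum_range_succ', sum_range_succ' (n := n)]
        have h1 : ∀ k ∈ range n, ∑ b ∈ range (k + 1 + 1), Fc g c (k + 1 - b) b * (x ^ (k + 1 - b) * y ^ b) =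
            ∑ b ∈ range (k + 1 + 1), e' (k + 1 - b) b * (x ^ (k + 1 - b) * y ^ b) := by
          intro k _
          refine sum_congr rfl fun b hb => ?_
          have hb' := mem_range.1 hb
          rw [he']
          simp only
          rw [if_neg (by omega)]
          unfold Fc co
          congr 2
          split_ifs with h2
          · apply hagree c hc
            intro h3
            have h4 := congrArg (fun q : Ix j => q.1.1.val) h3
            have h5 := congrArg (fun q : Ix j => q.1.2.val) h3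
            simp only [ix] at h4 h5
            omega
          · rfl
        rw [sum_congr rfl h1]
        have h2 : ∑ b ∈ range (0 + 1), Fc g c (0 - b) b * (x ^ (0 - b) * y ^ b) = g 0 0 + c (ix 0 0 (by omega)) := by
          simp only [zero_add, range_one, sum_singleton, Nat.sub_zero, pow_zero, mul_one]
          unfold Fc
          rw [co_of_le c (by omega : 0 + 0 ≤ j)]
        have h3 : ∑ b ∈ range (0 + 1), e' (0 - b) b * (x ^ (0 - b) * y ^ b) = g 0 0 := by
          rw [he']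
          simp
        rw [h2, h3]
        ring
      have hv : ∀ c ∈ T', ev n e' (P c).1 (P c).2 = -c (ix 0 0 (by omega)) := by
        intro c hc
        have h1 := (hP c (hmemT c hc)).2.2.2
        rw [hval c hc] at h1
        linarith
      have hinj : Set.InjOn P (T' : Set (Ix j → ℤ)) := by
        intro c hc c' hc' hcc
        have h1 := hv c hc
        have h2 := hv c' hc'
        rw [hcc, h2] at h1
        funext p
        by_cases hp : p = ix 0 0 (by omega)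
        · rw [hp]
          linarith
        · rw [hagree c hc p hp, hagree c' hc' p hp]
      rw [← card_image_of_injOn hinj, hM2]
      refine hL2 (top n g c0) (htop c0 hbox0) e' ?_ ?_ _ ?_
      · intro i hi
        rw [he', top]
        simp only
        rw [if_neg (by omega), if_pos (by omega)]
      · intro b hb
        rw [he']
        simp only
        split_ifs with h1
        · calc |(g 0 0 : ℝ)| ≤ B := g_le hg 0 0
            _ ≤ B * H := by nlinarith
        · exact Fc_le hB hH hg hbox0 _ _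
      · intro Q hQ
        obtain ⟨c, hc, rfl⟩ := mem_image.1 hQ
        have h1 := (hT' c hc).1
        rw [hTH, mem_filter] at h1
        have h2 := hP c h1.1
        refine ⟨?_, ?_, h2.2.2.1, ?_⟩
        · rw [← htc c hc]
          exact h1.2
        · rw [← htc c hc]
          exact pt_of (by omega) hB hH hg (hT c h1.1).1 hK h2.1 (hKx c h1.1) h2.2.2.2
        · rw [hv c hc, abs_neg]
          exact (hT c h1.1).1 _
  rw [Jx_card] at hTLc
  rw [card_singleton] at hTHc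
  have f1 : (TL.card : ℝ) ≤ M1 * (2 * (H : ℝ) + 1) ^ (Fintype.card (Ix j) - (min j (n - 2) + 1)) := by
    calc (TL.card : ℝ) ≤ ((⌊M1⌋₊ * (2 * H + 1) ^ (Fintype.card (Ix j) - (min j (n - 2) + 1)) : ℕ) : ℝ) := by exact_mod_cast hTLc
      _ = (⌊M1⌋₊ : ℝ) * (2 * (H : ℝ) + 1) ^ (Fintype.card (Ix j) - (min j (n - 2) + 1)) := by push_cast; ring
      _ ≤ _ := by
          have := Nat.floor_le hM10
          gcongr
  have f2 : (TH.card : ℝ) ≤ M2 * (2 * (H : ℝ) + 1) ^ (Fintype.card (Ix j) - 1) := by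
    calc (TH.card : ℝ) ≤ ((⌊M2⌋₊ * (2 * H + 1) ^ (Fintype.card (Ix j) - 1) : ℕ) : ℝ) := by exact_mod_cast hTHc
      _ = (⌊M2⌋₊ : ℝ) * (2 * (H : ℝ) + 1) ^ (Fintype.card (Ix j) - 1) := by push_cast; ring
      _ ≤ _ := by
          have := Nat.floor_le hM20
          gcongr
  calc (T.card : ℝ) = TL.card + TH.card := by rw [hsum]; push_cast; ring
    _ ≤ _ := add_le_add f1 f2
    _ = _ := by rw [hM1, hM2]; ring

end Pool.Agent.H82.A3
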