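import Pool.Agent.H82.A3.Ch
import Pool.Agent.H88.A2.Asm

/-! # [H82 A3 CNT] The middle range, counted, both charts -/

namespace Pool.Agent.H82.A3

open Finset MvPolynomial Pool.Agent.H8.AA Pool.Agent.H88.A2 Pool.Agent.H12.A3

/-- exchange of the exponents -/
def sp {j : ℕ} (p : Ix j) : Ix j := ⟨(p.1.2, p.1.1), by
  have := p.2
  show p.1.2.val + p.1.1.val ≤ j
  omega⟩

theorem sp_sp {j : ℕ} (p : Ix j) : sp (sp p) = p := rfl

theorem co_sp {j : ℕ} (c : Ix j → ℤ) (a b : ℕ) : co (fun p => c (sp p)) a b = co c b a := by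
  unfold co
  by_cases h : a + b ≤ j
  · rw [dif_pos h, dif_pos (by omega)]
    rfl
  · rw [dif_neg h, dif_neg (by omega)]

theorem Fc_sp {j : ℕ} (g : ℕ → ℕ → ℤ) (c : Ix j → ℤ) : Fc (sw g) (fun p => c (sp p)) = sw (Fc g c) := by
  funext a b
  unfold Fc sw
  rw [co_sp]

theorem nz_sw' {n : ℕ} {e : ℕ → ℕ → ℤ} (hz : Nz n e) : Nz n (sw e) := by
  intro v w hvw
  have h := hz w v hvw.symm
  intro h0
  apply h
  rw [← h0, ← Finset.sum_range_reflect]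
  refine Finset.sum_congr rfl fun j hj => ?_
  have hj' := Finset.mem_range.1 hj
  have h1 : n + 1 - 1 - j = n - j := by omega
  have h2 : n - (n - j) = j := by omega
  rw [h1, h2]
  unfold sw
  ring

theorem mid3 (n j : ℕ) (G : MvPolynomial (Fin 2) ℤ) (h : Hyp0 n j G) (B : ℕ) (hB : 2 ≤ B)
    (hG : ∀ m, |G.coeff m| + 1 ≤ (B : ℤ)) : ∃ C K : ℝ, 0 ≤ C ∧ 1 ≤ K ∧ ∀ (H : ℕ) (U : ℝ), 1 ≤ H → 1 ≤ U →
    ∀ T : Finset (Ix j → ℤ),
    (∀ c ∈ T, (∀ p, |c p| ≤ (H : ℤ)) ∧ ∃ P : Fin 2 → ℤ, eval P (G + pol c) = 0 ∧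
      K * H ≤ max |(P 0 : ℝ)| |(P 1 : ℝ)| ∧ max |(P 0 : ℝ)| |(P 1 : ℝ)| ≤ U) →
    (T.card : ℝ) ≤ C * (Lm H U *
        (2 * (H : ℝ) + 1) ^ (Fintype.card (Ix j) - (min j (n - 2) + 1)) +
      (1 + Real.log U / Real.log (2 * (H : ℝ) ^ 2)) * (2 * (H : ℝ) + 1) ^ (Fintype.card (Ix j) - 1)) := by
  classical
  have hn := h.hn
  have hjn := h.hjn
  have hB' : (2 : ℝ) ≤ (B : ℝ) := by exact_mod_cast hB
  obtain ⟨A, hA, hg1, hg2⟩ := gd_of (by omega : 2 ≤ n) h.irr (B : ℝ) (by linarith)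
  have hz := nz_of (by omega : 2 ≤ n) h.irr
  obtain ⟨g, hgd⟩ : ∃ g, g = ar G := ⟨_, rfl⟩
  rw [← hgd] at hg1 hg2 hz
  have hgB : ∀ a b, |g a b| + 1 ≤ (B : ℤ) := by
    intro a b
    rw [hgd]
    exact hG _
  obtain ⟨C1, K1, hC1, hK1, h1⟩ := ch1 n j hn hjn g B A hB hA hgB hz hg1
  obtain ⟨C2, K2, hC2, hK2, h2⟩ := ch1 n j hn hjn (sw g) B A hB hA (fun a b => hgB b a) (nz_sw' hz) hg2
  refine ⟨C1 + C2, K1 + K2, by linarith, by linarith, ?_⟩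
  intro H U hH hU T hT
  have hH' : (1 : ℝ) ≤ (H : ℝ) := by exact_mod_cast hH
  have hev : ∀ (c : Ix j → ℤ) (P : Fin 2 → ℤ), eval P (G + pol c) = ev n (Fc g c) (P 0) (P 1) := by
    intro c P
    have hd : (G + pol c).totalDegree ≤ n := (totalDegree_add _ _).trans (max_le h.deg ((Pool.Agent.H88.A2.pol_deg _).trans hjn.le))
    rw [← ar_ev hd]
    congr 1
    funext a b
    rw [ar_add, ar_pol, hgd]
    rfl
  obtain ⟨T1, hT1⟩ : ∃ T1, T1 = T.filter (fun c => ∃ x y : ℤ, |y| ≤ |x| ∧ K1 * H ≤ |(x : ℝ)| ∧ |(x : ℝ)| ≤ U ∧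
    ev n (Fc g c) x y = 0) := ⟨_, rfl⟩
  obtain ⟨T2, hT2⟩ : ∃ T2, T2 = T.filter (fun c => ∃ x y : ℤ, |y| ≤ |x| ∧ K2 * H ≤ |(x : ℝ)| ∧ |(x : ℝ)| ≤ U ∧
    ev n (Fc g c) y x = 0) := ⟨_, rfl⟩
  have hsub : T ⊆ T1 ∪ T2 := by
    intro c hc
    obtain ⟨hbox, P, hP0, hPK, hPU⟩ := hT c hc
    rw [hev] at hP0
    rw [mem_union, hT1, hT2, mem_filter, mem_filter]
    rcases le_total |P 1| |P 0| with h3 | h3
    · left
      have h3' : |(P 1 : ℝ)| ≤ |(P 0 : ℝ)| := by exact_mod_cast h3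
      rw [max_eq_left h3'] at hPK hPU
      exact ⟨hc, P 0, P 1, h3, by nlinarith, hPU, hP0⟩
    · right
      have h3' : |(P 0 : ℝ)| ≤ |(P 1 : ℝ)| := by exact_mod_cast h3
      rw [max_eq_right h3'] at hPK hPU
      exact ⟨hc, P 1, P 0, h3, by nlinarith, hPU, hP0⟩
  have hc1 := h1 H U hH hU T1 (by
    intro c hc
    rw [hT1, mem_filter] at hc
    exact ⟨(hT c hc.1).1, hc.2⟩)
  have hinj : Function.Injective (fun (c : Ix j → ℤ) (p : Ix j) => c (sp p)) := by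
    intro c c' hcc
    funext p
    have := congrFun hcc (sp p)
    exact this
  have hc2 := h2 H U hH hU (T2.image (fun c p => c (sp p))) (by
    intro c' hc'
    obtain ⟨c, hc, rfl⟩ := mem_image.1 hc'
    rw [hT2, mem_filter] at hc
    refine ⟨fun p => (hT c hc.1).1 _, ?_⟩
    obtain ⟨x, y, h4, h5, h6, h7⟩ := hc.2
    refine ⟨x, y, h4, h5, h6, ?_⟩
    rw [Fc_sp, ev_sw]
    exact h7)
  rw [card_image_of_injective _ hinj] at hc2
  have hcard : (T.card : ℝ) ≤ T1.card + T2.card := by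
    have h3 := (card_le_card hsub).trans (card_union_le _ _)
    exact_mod_cast h3
  calc (T.card : ℝ) ≤ T1.card + T2.card := hcard
    _ ≤ _ := add_le_add hc1 hc2
    _ = _ := by ring

end Pool.Agent.H82.A3
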