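import Pool.Agent.H88.A2.Def

/-! # [H82 A3 DEF] definitions for THEOREM AA3 (AA2 with the exact order `H^(M-1)`), MP_821da1_nt, think note 2601 -/

namespace Pool.Agent.H82.A3

open Finset Polynomial Pool.Agent.H8.AA Pool.Agent.H88.A2

/-- `y - θ x` -/
noncomputable def zz (θ : ℝ) (P : ℤ × ℤ) : ℝ := (P.2 : ℝ) - θ * P.1

/-- the points of `T` are near one branch at infinity -/
def Nb (θ C S H : ℝ) (T : Finset (ℤ × ℤ)) : Prop :=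
  ∀ P ∈ T, ∀ Q ∈ T, ∀ X : ℝ, 0 < X → X ≤ |(P.1 : ℝ)| → X ≤ |(Q.1 : ℝ)| →
    |zz θ Q - zz θ P| ≤ C * (S ^ 2 * |1 / (P.1 : ℝ) - 1 / Q.1| + H / X)

/-- the points of `V` are on one line whose integer direction `(v, w)` is short compared with the points -/
def Thin (D G H : ℝ) (V : Finset (ℤ × ℤ)) : Prop :=
  V = ∅ ∨ ∃ (P0 : ℤ × ℤ) (v w : ℤ) (X : ℝ), v ≠ 0 ∧ 0 < X ∧ |(v : ℝ)| * (D * H ^ 2) ≤ X ∧
    |(P0.2 : ℝ) - w / v * P0.1| ≤ G * H ∧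
    ∀ P ∈ V, X ≤ |(P.1 : ℝ)| ∧ ∃ k : ℤ, P.1 = P0.1 + k * v ∧ P.2 = P0.2 + k * w

end Pool.Agent.H82.A3
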