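import Pool.Agent.H82.A3.Asm
import Pool.Agent.H88.A2.Spa

/-! # [H82 A3 FIN] THEOREM AA3 for every fixed upper part -/

namespace Pool.Agent.H82.A3

open MvPolynomial Pool.Agent.H8.AA Pool.Agent.H88.A2

theorem lr_all (n j : ℕ) (G : MvPolynomial (Fin 2) ℤ) (h : Hyp0 n j G) : Lr j G := by
  by_cases hs : j + 2 ≤ n ∧ ∃ v : Fin 2 → ℚ, map (Int.castRingHom ℚ) (homogeneousComponent (n - 1) G) =
      ∑ i, C (v i) * pderiv i (map (Int.castRingHom ℚ) (homogeneousComponent n G))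
  · obtain ⟨E, hE⟩ := lrgs n h.hn
    obtain ⟨C3, hC3, hlrg⟩ := hE j G h.hj hs.1 h.deg h.irr hs.2
    exact ⟨E, C3, hC3, hlrg⟩
  · obtain ⟨E, hE⟩ := lrg2 n h.hn
    obtain ⟨C3, hC3, hlrg⟩ := hE j G ⟨h.hn, h.hj, h.hjn, h.deg, h.irr, fun h2 w hw => hs ⟨h2, w, hw⟩⟩
    exact ⟨E, C3, hC3, hlrg⟩

theorem aa3 (n j : ℕ) (G : MvPolynomial (Fin 2) ℤ) (h : Hyp0 n j G) (hj : 2 ≤ j) : ∃ C : ℝ, ∀ H : ℕ, 1 ≤ H →
    (Set.ncard {L : MvPolynomial (Fin 2) ℤ | L.totalDegree ≤ j ∧ (∀ m, |L.coeff m| ≤ (H : ℤ)) ∧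
      ∃ P : Fin 2 → ℤ, eval P (G + L) = 0} : ℝ) ≤
      C * (H : ℝ) ^ ((j + 1) * (j + 2) / 2 - 1) * (if j = 2 then 1 + Real.log H else 1) :=
  main3 n j G h hj (lr_all n j G h)

end Pool.Agent.H82.A3
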